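import Pool.Agent.Lib.MP_1748a2_lc.Main

universe u

namespace Pool.Agent.Results.MP_1748a2_lc.NoLongWellOrder

open Cardinal Pool.Agent.Lib.MP_1748a2_lc

/-- If `κ` is a limit of measurable cardinals and `R` is a well-ordering (a set of ordered pairs)
of a set `D ⊆ P(κ)` that is Sigma_1-definable with parameters in `H(κ) ∪ {κ}`,
then `D` has cardinality at most `κ`. -/
theorem result (κ : Cardinal.{u}) (hκ : ℵ₀ ≤ κ)
    (hlim : ∀ ν < κ, ∃ μ, ν < μ ∧ μ < κ ∧ IsMeasurable μ)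
    (D R : ZFSet.{u}) (hD : D ⊆ ZFSet.powerset κ.ord.toZFSet) (hR : R ⊆ D.prod D)
    (hwo : IsWellOrder D fun a b => ZFSet.pair a.1 b.1 ∈ R)
    (n : ℕ) (φ : Sigma1 (n + 1)) (p : Fin n → ZFSet.{u})
    (hp : ∀ i, InH κ (p i) ∨ p i = κ.ord.toZFSet)
    (hdef : ∀ z, z ∈ R ↔ φ.Sat (Fin.cons z p)) : D.card ≤ κ :=
  main hκ hlim hD hR hwo φ p hp hdef

end Pool.Agent.Results.MP_1748a2_lc.NoLongWellOrder
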